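import Mathlib
import Pool.Agent.Q157.Quiddity

/-!
For `p` coprime to `12`, `p ≥ 3`, the equation `(E_{3p})` has an irreducible solution of size
`4p`: the constant tuple with entry `k ≡ 0 (mod 3)`, `k ≡ 2 (mod p)`.
-/

namespace Pool.Agent.Results.MP_8835a9_co.NoUniformBound

open Matrix Q157.Quiddity

theorem M_cons {N : ℕ} (a : ZMod N) (l : List (ZMod N)) : M (a :: l) = M l * A a := rfl

theorem M_append {N : ℕ} (l₁ l₂ : List (ZMod N)) : M (l₁ ++ l₂) = M l₂ * M l₁ := by
  induction l₁ with
  | nil => simp [M]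
  | cons a l ih => rw [List.cons_append, M_cons, ih, M_cons, Matrix.mul_assoc]

theorem M_replicate {N : ℕ} (a : ZMod N) (n : ℕ) : M (List.replicate n a) = A a ^ n := by
  induction n with
  | zero => simp [M]
  | succ n ih => rw [List.replicate_succ, M_cons, ih, pow_succ]

/-- Powers of `A 2`. -/
theorem A_two_pow {N : ℕ} (n : ℕ) :
    (A (2 : ZMod N)) ^ n = !![(n : ZMod N) + 1, -(n : ZMod N); (n : ZMod N), 1 - (n : ZMod N)] := by
  induction n with
  | zero => simp [one_fin_two]
  | succ n ih =>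
    rw [pow_succ, ih, A, mul_fin_two]
    ext i j
    fin_cases i <;> fin_cases j <;> simp <;> ring

theorem A_zero_sq {N : ℕ} : (A (0 : ZMod N)) ^ 2 = -1 := by
  rw [sq, A, mul_fin_two, one_fin_two]
  ext i j
  fin_cases i <;> fin_cases j <;> simp

theorem A_zero_four {N : ℕ} : (A (0 : ZMod N)) ^ 4 = 1 := by
  have : (A (0 : ZMod N)) ^ 4 = ((A (0 : ZMod N)) ^ 2) ^ 2 := by rw [← pow_mul]
  rw [this, A_zero_sq]
  simp

theorem A_zero_pow (j : ℕ) :
    ((A (0 : ZMod 3)) ^ j) 0 0 = if j % 4 = 0 then 1 else if j % 4 = 2 then -1 else 0 := by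
  have h : (A (0 : ZMod 3)) ^ j = (A (0 : ZMod 3)) ^ (j % 4) := by
    conv_lhs => rw [← Nat.div_add_mod j 4, pow_add, pow_mul, A_zero_four, one_pow, one_mul]
  rw [h]
  have h4 : j % 4 < 4 := Nat.mod_lt _ (by norm_num)
  generalize j % 4 = r at h4
  interval_cases r
  · simp
  · simp [A]
  · simp [A_zero_sq]
  · rw [pow_succ, A_zero_sq]
    simp [A]

/-- The matrix `M` commutes with ring homomorphisms. -/
theorem A_pow_map {N N' : ℕ} (f : ZMod N →+* ZMod N') (a : ZMod N) (n : ℕ) :
    (A a ^ n).map f = A (f a) ^ n := by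
  have h1 : (A a).map f = A (f a) := by
    rw [A, A]
    ext i j
    fin_cases i <;> fin_cases j <;> simp
  rw [← h1]
  exact Matrix.map_pow (A a) f n

section

variable {p : ℕ} (h3 : Nat.Coprime 3 p)

/-- The residue which is `0` modulo `3` and `2` modulo `p`. -/
noncomputable def k : ZMod (3 * p) := (ZMod.chineseRemainder h3).symm (0, 2)

/-- Reduction modulo `3`. -/
noncomputable def f₁ : ZMod (3 * p) →+* ZMod 3 :=
  (RingHom.fst (ZMod 3) (ZMod p)).comp (ZMod.chineseRemainder h3).toRingHom

/-- Reduction modulo `p`. -/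
noncomputable def f₂ : ZMod (3 * p) →+* ZMod p :=
  (RingHom.snd (ZMod 3) (ZMod p)).comp (ZMod.chineseRemainder h3).toRingHom

theorem f₁_k : f₁ h3 (k h3) = 0 := by simp [f₁, k]

theorem f₂_k : f₂ h3 (k h3) = 2 := by simp [f₂, k]

theorem eq_of_f {x y : ZMod (3 * p)} (h1 : f₁ h3 x = f₁ h3 y) (h2 : f₂ h3 x = f₂ h3 y) :
    x = y :=
  (ZMod.chineseRemainder h3).injective (Prod.ext h1 h2)

theorem pow_apply_f₁ (n : ℕ) (i j : Fin 2) :
    f₁ h3 ((A (k h3) ^ n) i j) = (A (0 : ZMod 3) ^ n) i j := by
  rw [← f₁_k h3, ← A_pow_map, Matrix.map_apply]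

theorem pow_apply_f₂ (n : ℕ) (i j : Fin 2) :
    f₂ h3 ((A (k h3) ^ n) i j) = (A (2 : ZMod p) ^ n) i j := by
  rw [← f₂_k h3, ← A_pow_map, Matrix.map_apply]

theorem solution (hp : 1 ≤ p) : IsSolution (List.replicate (4 * p) (k h3)) := by
  refine ⟨by rw [List.length_replicate]; omega, Or.inl ?_⟩
  rw [M_replicate]
  ext i j
  apply eq_of_f h3
  · rw [pow_apply_f₁, pow_mul, A_zero_four, one_pow]
    by_cases hij : i = j
    · subst hij; simp
    · simp [Matrix.one_apply_ne hij]
  · rw [pow_apply_f₂, A_two_pow]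
    fin_cases i <;> fin_cases j <;> simp

theorem not_reducible (h4 : Nat.Coprime 4 p) :
    ¬ IsReducible (List.replicate (4 * p) (k h3)) := by
  rintro ⟨a, b, d, _, ha3, hb, hb3, ⟨a₁, aₙ, b₁, bₘ, a', b', rfl, rfl, rfl⟩, hequiv⟩
  -- the sum is the constant word
  have hd : (a₁ + bₘ) :: (a' ++ (aₙ + b₁) :: b') = List.replicate (4 * p) (k h3) := by
    rw [Equivalent, List.reverse_replicate, or_self] at hequiv
    obtain ⟨n, hn⟩ := hequiv
    rw [List.rotate_replicate] at hn
    exact hn.symm
  have hlen : a'.length + b'.length + 2 = 4 * p := by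
    have := congrArg List.length hd
    simp only [List.length_cons, List.length_append, List.length_replicate] at this
    omega
  simp only [List.length_cons, List.length_append, List.length_nil] at ha3 hb3
  have hb' : b' = List.replicate b'.length (k h3) := by
    rw [List.eq_replicate_iff]
    refine ⟨rfl, fun x hx => ?_⟩
    have hmem : x ∈ List.replicate (4 * p) (k h3) := by
      rw [← hd]; simp [hx]
    exact List.eq_of_mem_replicate hmem
  set j := b'.length with hj
  -- the continuant of `b'` is `± 1`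
  have hK : (A (k h3) ^ j) 0 0 = 1 ∨ (A (k h3) ^ j) 0 0 = -1 := by
    have hM := hb.2
    rw [M_cons, M_append, hb', M_replicate, M_cons] at hM
    simp only [M, Matrix.one_mul] at hM
    obtain ⟨P, hP⟩ : ∃ P, P = A (k h3) ^ j := ⟨_, rfl⟩
    rw [← hP] at hM ⊢
    have hentry : (A bₘ * P * A b₁) 1 1 = -P 0 0 := by
      rw [eta_fin_two P, A, A, mul_fin_two, mul_fin_two]
      simp
    rcases hM with h | h
    · right
      have := congrFun (congrFun h 1) 1
      rw [hentry] at this
      simp at this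
      rw [← this, neg_neg]
    · left
      have := congrFun (congrFun h 1) 1
      rw [hentry] at this
      simp at this
      exact this
  have hj1 : 1 ≤ j := by omega
  have hj2 : j + 3 ≤ 4 * p := by omega
  have hcop : Nat.Coprime 4 p := h4
  have ne11 : (1 : ZMod 3) ≠ -1 := by decide
  have ne01 : (0 : ZMod 3) ≠ 1 := by decide
  have ne0n : (0 : ZMod 3) ≠ -1 := by decide
  rcases hK with h | h
  · have e1 := pow_apply_f₁ h3 j 0 0
    have e2 := pow_apply_f₂ h3 j 0 0
    rw [h, map_one, A_zero_pow] at e1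
    rw [h, map_one, A_two_pow] at e2
    simp at e2
    have hpj : p ∣ j := (ZMod.natCast_eq_zero_iff j p).1 e2
    have h4j : 4 ∣ j := by
      split_ifs at e1 with h0 h2
      · exact Nat.dvd_of_mod_eq_zero h0
      · exact absurd e1 ne11
      · exact absurd e1.symm ne01
    have := Nat.le_of_dvd (by omega) (hcop.mul_dvd_of_dvd_of_dvd h4j hpj)
    omega
  · have e1 := pow_apply_f₁ h3 j 0 0
    have e2 := pow_apply_f₂ h3 j 0 0
    rw [h, map_neg, map_one, A_zero_pow] at e1
    rw [h, map_neg, map_one, A_two_pow] at e2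
    simp at e2
    have hpj : p ∣ j + 2 := by
      rw [← ZMod.natCast_eq_zero_iff]
      push_cast
      linear_combination -e2
    have h4j : 4 ∣ j + 2 := by
      split_ifs at e1 with h0 h2
      · exact absurd e1.symm ne11
      · omega
      · exact absurd e1.symm ne0n
    have := Nat.le_of_dvd (by omega) (hcop.mul_dvd_of_dvd_of_dvd h4j hpj)
    omega

end

/-- For every positive `K` there are `N ≥ 2` and an irreducible solution of `(E_N)` of size at
least `N + K`; the solution can be taken of size exactly `4N/3`. -/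
theorem result : ∀ K : ℕ, 1 ≤ K → ∃ N : ℕ, 2 ≤ N ∧ ∃ c : List (ZMod N),
    IsIrreducibleSolution c ∧ N + K ≤ c.length ∧ 3 * c.length = 4 * N := by
  intro K hK
  obtain ⟨p, hp⟩ : ∃ p, p = 12 * K + 1 := ⟨_, rfl⟩
  have h3 : Nat.Coprime 3 p := by
    rw [hp, show 12 * K + 1 = 1 + (4 * K) * 3 by ring]
    simp
  have h4 : Nat.Coprime 4 p := by
    rw [hp, show 12 * K + 1 = 1 + (3 * K) * 4 by ring]
    simp
  refine ⟨3 * p, by omega, List.replicate (4 * p) (k h3), ⟨solution h3 (by omega), ?_,
    not_reducible h3 h4⟩, ?_, ?_⟩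
  · rw [List.length_replicate]; omega
  · rw [List.length_replicate]; omega
  · rw [List.length_replicate]; omega

end Pool.Agent.Results.MP_8835a9_co.NoUniformBound
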